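import Pool.Agent.Helper85.PHU.Gab
import Pool.Agent.Helper83.PHU.Tools
import Pool.Agent.Helper23.PHU.Area

/-!
# MP_8bf717_co, polygons with at most five vertices: points beyond both sides
-/

set_option autoImplicit false

open MeasureTheory Set

namespace Pool.Agent.Helper8.PH5

open Pool.Agent.Helper27.PHU Pool.Agent.Helper37.PH Pool.Agent.Helper61.PH
open Pool.Agent.Helper83.PHU Pool.Agent.Helper85.PHU Pool.Agent.Helper23.PHU

/-! ## Reflections -/

def mir (K : Set (ℝ × ℝ)) : Set (ℝ × ℝ) := (fun q : ℝ × ℝ => (-q.1, q.2)) '' K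

def upd (K : Set (ℝ × ℝ)) : Set (ℝ × ℝ) := (fun q : ℝ × ℝ => (q.1, -q.2)) '' K

theorem mir_eq (K : Set (ℝ × ℝ)) : mir K = affE LX 0 '' K := by
  unfold mir
  apply image_congr
  intro q _
  rw [affE_apply, LX_apply, sub_zero]

theorem upd_eq (K : Set (ℝ × ℝ)) : upd K = affE LY 0 '' K := by
  unfold upd
  apply image_congr
  intro q _
  rw [affE_apply, LY_apply, sub_zero]

theorem Cov_mir {K : Set (ℝ × ℝ)} {V : ℝ} (h : Cov (mir K) V) : Cov K V := by
  apply Cov_affE LX 0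
  rw [det_LX, one_mul, ← mir_eq]
  exact h

theorem Cov_upd {K : Set (ℝ × ℝ)} {V : ℝ} (h : Cov (upd K) V) : Cov K V := by
  apply Cov_affE LY 0
  rw [det_LY, one_mul, ← upd_eq]
  exact h

theorem vol_mir (K : Set (ℝ × ℝ)) : volume (mir K) = volume K := by
  rw [mir_eq, volume_affE, det_LX, ENNReal.ofReal_one, one_mul]

theorem vol_swap (K : Set (ℝ × ℝ)) : volume (Prod.swap '' K) = volume K := by
  have e : Prod.swap '' K = affE (LinearEquiv.prodComm ℝ ℝ ℝ) 0 '' K := by
    apply image_congr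
    intro q _
    rw [affE_apply, sub_zero]
    rfl
  rw [e, volume_affE]
  have : |LinearMap.det ((LinearEquiv.prodComm ℝ ℝ ℝ : (ℝ × ℝ) ≃ₗ[ℝ] (ℝ × ℝ)) :
      (ℝ × ℝ) →ₗ[ℝ] (ℝ × ℝ))| = 1 := by
    apply abs_det_invol
    intro q
    rfl
  rw [this, ENNReal.ofReal_one, one_mul]

theorem mem_mir {K : Set (ℝ × ℝ)} {x y : ℝ} (h : (x, y) ∈ K) : (-x, y) ∈ mir K := ⟨_, h, rfl⟩

theorem conv_mir {K : Set (ℝ × ℝ)} (h : Convex ℝ K) : Convex ℝ (mir K) := by
  rw [mir_eq]
  exact h.affine_image (affE LX 0).toAffineMap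

theorem conv_swap {K : Set (ℝ × ℝ)} (h : Convex ℝ K) : Convex ℝ (Prod.swap '' K) := by
  have e : Prod.swap '' K = affE (LinearEquiv.prodComm ℝ ℝ ℝ) 0 '' K := by
    apply image_congr
    intro q _
    rw [affE_apply, sub_zero]
    rfl
  rw [e]
  exact h.affine_image (affE (LinearEquiv.prodComm ℝ ℝ ℝ) 0).toAffineMap

/-! ## Case C -/

/-- `K` is the hull of the triangle and of `(p, q)`, `(-p', q')`. -/
structure T5 (K : Set (ℝ × ℝ)) (p q p' q' : ℝ) : Prop where
  conv : Convex ℝ K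
  mA : ((-1 : ℝ), (0 : ℝ)) ∈ K
  mB : ((1 : ℝ), (0 : ℝ)) ∈ K
  mC : ((0 : ℝ), (1 : ℝ)) ∈ K
  mE : (p, q) ∈ K
  mF : (-p', q') ∈ K
  hull : ∀ u v w : ℝ, -u ≤ w → u ≤ w → v ≤ w → u * p + v * q ≤ w → -(u * p') + v * q' ≤ w →
    ∀ z ∈ K, u * z.1 + v * z.2 ≤ w
  b0 : 1 < p + q
  q1 : q ≤ 1
  pq : p ≤ 1 + q
  b0' : 1 < p' + q'
  q1' : q' ≤ 1
  pq' : p' ≤ 1 + q'

theorem T5.mirror {K : Set (ℝ × ℝ)} {p q p' q' : ℝ} (h : T5 K p q p' q') :
    T5 (mir K) p' q' p q where
  conv := conv_mir h.conv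
  mA := mem_mir h.mB
  mB := by
    have := mem_mir h.mA
    rwa [neg_neg] at this
  mC := by
    have := mem_mir h.mC
    rwa [neg_zero] at this
  mE := by
    have := mem_mir h.mF
    rwa [neg_neg] at this
  mF := mem_mir h.mE
  hull := by
    rintro u v w h1 h2 h3 h4 h5 _ ⟨z, hz, rfl⟩
    have := h.hull (-u) v w (by linarith) h1 h3 (by linarith) (by linarith) z hz
    show u * -z.1 + v * z.2 ≤ w
    linarith
  b0 := h.b0'
  q1 := h.q1'
  pq := h.pq'
  b0' := h.b0
  q1' := h.q1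
  pq' := h.pq

theorem T5.q0 {K : Set (ℝ × ℝ)} {p q p' q' : ℝ} (h : T5 K p q p' q') : 0 < q := by
  have := h.b0
  have := h.pq
  linarith

theorem T5.q0' {K : Set (ℝ × ℝ)} {p q p' q' : ℝ} (h : T5 K p q p' q') : 0 < q' := by
  have := h.b0'
  have := h.pq'
  linarith

theorem T5.p0 {K : Set (ℝ × ℝ)} {p q p' q' : ℝ} (h : T5 K p q p' q') : 0 < p := by
  have := h.b0
  have := h.q1
  linarith

theorem T5.p0' {K : Set (ℝ × ℝ)} {p q p' q' : ℝ} (h : T5 K p q p' q') : 0 < p' := by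
  have := h.b0'
  have := h.q1'
  linarith

/-- horizontal walls, one line on the right, two lines on the left -/
theorem T5.covR {K : Set (ℝ × ℝ)} {p q p' q' : ℝ} (h : T5 K p q p' q') {a b : ℝ}
    (ha : 1 ≤ a) (hab : 0 ≤ a + b) (hp : p ≤ a + b * q) :
    Cov K (a + b / 2 + (p' + q') / 2) := by
  have q0 := h.q0
  have q0' := h.q0'
  have p0 := h.p0
  have p0' := h.p0'
  have q1 := h.q1
  have q1' := h.q1'
  have b0 := h.b0
  have b0' := h.b0'
  have pq' := h.pq'
  have pq := h.pq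
  -- the line on the right
  have hR : ∀ z ∈ K, z.1 ≤ a + b * z.2 := by
    intro z hz
    have hq' : 0 ≤ a + b * q' := by nlinarith
    have := h.hull 1 (-b) a (by linarith) ha (by linarith) (by linarith) (by linarith) z hz
    linarith
  -- the lower line on the left
  have hL1 : ∀ z ∈ K, -z.1 ≤ 1 + (p' - 1) / q' * z.2 := by
    intro z hz
    set s : ℝ := (p' - 1) / q' with hs
    have hsq : s * q' = p' - 1 := by rw [hs]; field_simp
    have hs1 : -1 < s := by
      by_contra hc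
      push Not at hc
      nlinarith
    have := h.hull (-1) (-s) 1 (by linarith) (by linarith) (by linarith) (by nlinarith)
      (by linarith) z hz
    linarith
  have hy0 : ∀ z ∈ K, 0 ≤ z.2 := by
    intro z hz
    have := h.hull 0 (-1) 0 (by linarith) (by linarith) (by linarith) (by linarith)
      (by linarith) z hz
    linarith
  have hy1 : ∀ z ∈ K, z.2 ≤ 1 := by
    intro z hz
    have := h.hull 0 1 1 (by linarith) (by linarith) (by linarith) (by linarith)
      (by linarith) z hz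
    linarith
  apply Cov_swap
  rcases q1'.eq_or_lt with hq1 | hq1
  · -- a single line on the left
    refine cov_single (X0 := 0) (X1 := 1) (a := a) (b := b) (c1 := -1) (d1 := -((p' - 1) / q'))
      (c2 := -1) (d2 := -((p' - 1) / q')) (q := 1) zero_lt_one ?_ le_rfl le_rfl ?_ ?_
      zero_le_one le_rfl ?_
    · rintro _ ⟨z, hz, rfl⟩
      have k1 := hL1 z hz
      exact ⟨hy0 z hz, hy1 z hz, hR z hz, by simp only [Prod.fst_swap, Prod.snd_swap]; linarith,
        by simp only [Prod.fst_swap, Prod.snd_swap]; linarith⟩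
    · linarith
    · rw [hq1, div_one]
      linarith
    · rw [hq1, div_one]
      linarith
  · have hd : 0 < 1 - q' := by linarith
    have hL2 : ∀ z ∈ K, -z.1 ≤ p' / (1 - q') * (1 - z.2) := by
      intro z hz
      set s : ℝ := p' / (1 - q') with hs
      have hsq : s * (1 - q') = p' := by rw [hs]; field_simp
      have hs1 : 1 ≤ s := by
        by_contra hc
        push Not at hc
        nlinarith
      have hs2 : 0 ≤ s * (1 - q) := by
        apply mul_nonneg <;> linarith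
      have := h.hull (-1) s s (by linarith) (by linarith) (by linarith) (by linarith)
        (by linarith) z hz
      linarith
    refine cov_single (X0 := 0) (X1 := 1) (a := a) (b := b) (c1 := -1) (d1 := -((p' - 1) / q'))
      (c2 := -(p' / (1 - q'))) (d2 := p' / (1 - q')) (q := q') zero_lt_one ?_ ?_ ?_ ?_ ?_
      q0'.le hq1.le ?_
    · rintro _ ⟨z, hz, rfl⟩
      have k1 := hL1 z hz
      have k2 := hL2 z hz
      exact ⟨hy0 z hz, hy1 z hz, hR z hz, by simp only [Prod.fst_swap, Prod.snd_swap]; linarith,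
        by simp only [Prod.fst_swap, Prod.snd_swap]; linarith⟩
    · have : 1 ≤ p' / (1 - q') := by
        rw [le_div_iff₀ hd]; linarith
      linarith
    · have : -1 ≤ (p' - 1) / q' := by
        rw [le_div_iff₀ q0']; linarith
      linarith
    · linarith
    · linarith
    · apply le_of_eq
      field_simp
      ring

/-- vertical walls, floor `y = 0`, two roof lines through `(0, 1)` -/
theorem T5.covF {K : Set (ℝ × ℝ)} {p q p' q' : ℝ} (h : T5 K p q p' q') (hp : 1 ≤ p)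
    (hp' : 1 ≤ p') : Cov K (p * (1 + q) / 2 + p' * (1 + q') / 2) := by
  have q0 := h.q0
  have q0' := h.q0'
  have p0 := h.p0
  have p0' := h.p0'
  have q1 := h.q1
  have q1' := h.q1'
  have hR : ∀ z ∈ K, z.1 ≤ p := by
    intro z hz
    have := h.hull 1 0 p (by linarith) (by linarith) (by linarith) (by linarith)
      (by linarith) z hz
    linarith
  have hL : ∀ z ∈ K, -z.1 ≤ p' := by
    intro z hz
    have := h.hull (-1) 0 p' (by linarith) (by linarith) (by linarith) (by linarith)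
      (by linarith) z hz
    linarith
  have hy0 : ∀ z ∈ K, 0 ≤ z.2 := by
    intro z hz
    have := h.hull 0 (-1) 0 (by linarith) (by linarith) (by linarith) (by linarith)
      (by linarith) z hz
    linarith
  have e1 : (1 - q) / p * p = 1 - q := by field_simp
  have e2 : (1 - q') / p' * p' = 1 - q' := by field_simp
  have f1 : 0 ≤ (1 - q) / p := div_nonneg (by linarith) p0.le
  have f2 : 0 ≤ (1 - q') / p' := div_nonneg (by linarith) p0'.le
  have g1 : (1 - q) / p ≤ 1 := by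
    rw [div_le_one p0]; linarith
  have g2 : (1 - q') / p' ≤ 1 := by
    rw [div_le_one p0']; linarith
  have hT1 : ∀ z ∈ K, z.2 ≤ 1 - (1 - q) / p * z.1 := by
    intro z hz
    have k := mul_nonneg f1 p0'.le
    have := h.hull ((1 - q) / p) 1 1 (by linarith) (by linarith) (by linarith)
      (by linarith) (by linarith) z hz
    linarith
  have hT2 : ∀ z ∈ K, z.2 ≤ 1 + (1 - q') / p' * z.1 := by
    intro z hz
    have k := mul_nonneg f2 p0.le
    have := h.hull (-((1 - q') / p')) 1 1 (by linarith) (by linarith) (by linarith)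
      (by linarith) (by linarith) z hz
    linarith
  apply Cov_upd
  refine cov_single (X0 := -p') (X1 := p) (a := 0) (b := 0) (c1 := -1)
    (d1 := -((1 - q') / p')) (c2 := -1) (d2 := (1 - q) / p) (q := 0) (by linarith) ?_ ?_ ?_ ?_ ?_
    (by linarith) p0.le ?_
  · rintro _ ⟨z, hz, rfl⟩
    have k1 := hR z hz
    have k2 := hL z hz
    have k3 := hT1 z hz
    have k4 := hT2 z hz
    have k5 := hy0 z hz
    refine ⟨?_, k1, ?_, ?_, ?_⟩
    · show -p' ≤ z.1
      linarith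
    · show -z.2 ≤ 0 + 0 * z.1
      linarith
    · show -1 + -((1 - q') / p') * z.1 ≤ -z.2
      linarith
    · show -1 + (1 - q) / p * z.1 ≤ -z.2
      linarith
  · have := mul_nonneg f1 p0'.le
    linarith
  · have := mul_nonneg f2 p0.le
    linarith
  · linarith
  · linarith
  · apply le_of_eq
    field_simp
    ring

/-- the area of `K` -/
theorem T5.vol {K : Set (ℝ × ℝ)} {p q p' q' : ℝ} (h : T5 K p q p' q') :
    ENNReal.ofReal ((p + q) / 2 + (p' + q') / 2) ≤ volume K := by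
  have q0 := h.q0
  have q0' := h.q0'
  have p0 := h.p0
  have p0' := h.p0'
  have q1 := h.q1
  have q1' := h.q1'
  have comb : ∀ {x y x' y' : ℝ}, (x, y) ∈ K → (x', y') ∈ K → ∀ t : ℝ, 0 ≤ t → t ≤ 1 →
      ((1 - t) * x + t * x', (1 - t) * y + t * y') ∈ K := by
    intro x y x' y' h1 h2 t ht0 ht1
    exact conv_comb h.conv h1 h2 ht0 ht1
  have m0 : ((0 : ℝ), (0 : ℝ)) ∈ K := by
    have := comb h.mA h.mB (1 / 2) (by norm_num) (by norm_num)
    convert this using 2 <;> norm_num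
  have mz : ∀ t : ℝ, 0 ≤ t → t ≤ 1 → ((0 : ℝ), t) ∈ K := by
    intro t h0 h1
    have := comb m0 h.mC t h0 h1
    convert this using 2 <;> ring
  rw [← vol_swap]
  set S := Prod.swap '' K with hS
  have hSc : Convex ℝ S := conv_swap h.conv
  have ms : ∀ {x y : ℝ}, (x, y) ∈ K → (y, x) ∈ S := fun {x y} hxy => ⟨(x, y), hxy, rfl⟩
  have convge : Convex ℝ {z : ℝ × ℝ | 0 ≤ z.2} := by
    intro u hu v hv a b ha hb hab
    have hu : 0 ≤ u.2 := hu
    have hv : 0 ≤ v.2 := hv
    show 0 ≤ a * u.2 + b * v.2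
    positivity
  have convle : Convex ℝ {z : ℝ × ℝ | z.2 ≤ 0} := by
    intro u hu v hv a b ha hb hab
    have hu : u.2 ≤ 0 := hu
    have hv : v.2 ≤ 0 := hv
    show a * u.2 + b * v.2 ≤ 0
    have := mul_nonneg ha (by linarith : 0 ≤ -u.2)
    have := mul_nonneg hb (by linarith : 0 ≤ -v.2)
    linarith
  have g1 := trap (C := S ∩ {z : ℝ × ℝ | 0 ≤ z.2}) (hSc.inter convge) (p := 0) (q := q)
    (u := 0) (u' := 1) (v := 0) (v' := p) q0.le ⟨ms m0, le_refl (0 : ℝ)⟩
    ⟨ms h.mB, by show (0 : ℝ) ≤ 1; norm_num⟩ ⟨ms (mz q q0.le q1), le_refl (0 : ℝ)⟩ ⟨ms h.mE, p0.le⟩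
  have g2 := trap (C := S ∩ {z : ℝ × ℝ | 0 ≤ z.2}) (hSc.inter convge) (p := q) (q := 1)
    (u := 0) (u' := p) (v := 0) (v' := 0) q1 ⟨ms (mz q q0.le q1), le_refl (0 : ℝ)⟩
    ⟨ms h.mE, p0.le⟩ ⟨ms h.mC, le_refl (0 : ℝ)⟩ ⟨ms h.mC, le_refl (0 : ℝ)⟩
  have g3 := trap (C := S ∩ {z : ℝ × ℝ | z.2 ≤ 0}) (hSc.inter convle) (p := 0) (q := q')
    (u := -1) (u' := 0) (v := -p') (v' := 0) q0'.le ⟨ms h.mA, by show (-1 : ℝ) ≤ 0; norm_num⟩
    ⟨ms m0, le_refl (0 : ℝ)⟩ ⟨ms h.mF, by show -p' ≤ 0; linarith⟩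
    ⟨ms (mz q' q0'.le q1'), le_refl (0 : ℝ)⟩
  have g4 := trap (C := S ∩ {z : ℝ × ℝ | z.2 ≤ 0}) (hSc.inter convle) (p := q') (q := 1)
    (u := -p') (u' := 0) (v := 0) (v' := 0) q1' ⟨ms h.mF, by show -p' ≤ 0; linarith⟩
    ⟨ms (mz q' q0'.le q1'), le_refl (0 : ℝ)⟩
    ⟨ms h.mC, le_refl (0 : ℝ)⟩ ⟨ms h.mC, le_refl (0 : ℝ)⟩
  have s1 := split_x (S ∩ {z : ℝ × ℝ | 0 ≤ z.2}) (p := 0) (q := q) (r := 1) q0.le q1
  have s2 := split_x (S ∩ {z : ℝ × ℝ | z.2 ≤ 0}) (p := 0) (q := q') (r := 1) q0'.le q1'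
  have s3 := split_y S 0
  have t1 : ENNReal.ofReal ((p + q) / 2) ≤ volume (S ∩ {z : ℝ × ℝ | 0 ≤ z.2}) := by
    calc ENNReal.ofReal ((p + q) / 2) =
        ENNReal.ofReal ((q - 0) * ((1 - 0) + (p - 0)) / 2) +
          ENNReal.ofReal ((1 - q) * ((p - 0) + (0 - 0)) / 2) := by
          rw [← ENNReal.ofReal_add]
          · congr 1; ring
          · have : 0 ≤ q * (1 + p) := by positivity
            linarith
          · have : 0 ≤ (1 - q) * p := mul_nonneg (by linarith) p0.le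
            linarith
      _ ≤ _ := (add_le_add g1 g2).trans (s1.trans (measure_mono inter_subset_left))
  have t2 : ENNReal.ofReal ((p' + q') / 2) ≤ volume (S ∩ {z : ℝ × ℝ | z.2 ≤ 0}) := by
    calc ENNReal.ofReal ((p' + q') / 2) =
        ENNReal.ofReal ((q' - 0) * ((0 - -1) + (0 - -p')) / 2) +
          ENNReal.ofReal ((1 - q') * ((0 - -p') + (0 - 0)) / 2) := by
          rw [← ENNReal.ofReal_add]
          · congr 1; ring
          · have : 0 ≤ q' * (1 + p') := by positivity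
            linarith
          · have : 0 ≤ (1 - q') * p' := mul_nonneg (by linarith) p0'.le
            linarith
      _ ≤ _ := (add_le_add g3 g4).trans (s2.trans (measure_mono inter_subset_left))
  rw [ENNReal.ofReal_add (by linarith) (by linarith), add_comm]
  exact (add_le_add t2 t1).trans s3

theorem T5.covL {K : Set (ℝ × ℝ)} {p q p' q' : ℝ} (h : T5 K p q p' q') {a b : ℝ}
    (ha : 1 ≤ a) (hab : 0 ≤ a + b) (hp : p' ≤ a + b * q') :
    Cov K (a + b / 2 + (p + q) / 2) := Cov_mir (h.mirror.covR ha hab hp)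

/-- the lower line on the right -/
theorem T5.low {K : Set (ℝ × ℝ)} {p q p' q' : ℝ} (h : T5 K p q p' q') :
    Cov K ((p + q) / 2 + (p' + q') / 2 + (p + q - 1) / 2 * (1 - q) / q) := by
  have q0 := h.q0
  have b0 := h.b0
  have := h.covR (a := 1) (b := (p - 1) / q) le_rfl
    (by
      have : -1 ≤ (p - 1) / q := by
        rw [le_div_iff₀ q0]; linarith
      linarith)
    (by
      have : (p - 1) / q * q = p - 1 := by field_simp
      linarith)
  refine cov_mono this subset_rfl (le_of_eq ?_)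
  field_simp
  ring

/-- the upper line on the right -/
theorem T5.upp {K : Set (ℝ × ℝ)} {p q p' q' : ℝ} (h : T5 K p q p' q') (hq : q < 1) :
    Cov K ((p + q) / 2 + (p' + q') / 2 + (p + q - 1) / 2 * q / (1 - q)) := by
  have q0 := h.q0
  have b0 := h.b0
  have hd : 0 < 1 - q := by linarith
  have := h.covR (a := p / (1 - q)) (b := -(p / (1 - q)))
    (by
      rw [le_div_iff₀ hd]; linarith)
    (by linarith)
    (by
      have : p / (1 - q) * (1 - q) = p := by field_simp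
      linarith)
  refine cov_mono this subset_rfl (le_of_eq ?_)
  field_simp
  ring

theorem T5.wR {K : Set (ℝ × ℝ)} {p q p' q' : ℝ} (h : T5 K p q p' q') :
    ∃ W : ℝ, Cov K ((p + q) / 2 + (p' + q') / 2 + W) ∧ W ≤ (p + q - 1) / 2 ∧
      (p ≤ 1 → W ≤ 1 / 4) := by
  have q0 := h.q0
  have b0 := h.b0
  have q1 := h.q1
  rcases le_or_gt (1 / 2) q with hq | hq
  · refine ⟨_, h.low, ?_, fun hp => ?_⟩
    · rw [div_le_iff₀ q0]
      nlinarith [mul_nonneg (by linarith : 0 ≤ p + q - 1) (by linarith : 0 ≤ q - 1 / 2)]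
    · rw [div_le_iff₀ q0]
      nlinarith [mul_nonneg (by linarith : 0 ≤ 1 - p) (by linarith : 0 ≤ 1 - q),
        mul_nonneg q0.le (by linarith : 0 ≤ q - 1 / 2)]
  · have hd : 0 < 1 - q := by linarith
    refine ⟨_, h.upp (by linarith), ?_, fun hp => ?_⟩
    · rw [div_le_iff₀ hd]
      nlinarith [mul_nonneg (by linarith : 0 ≤ p + q - 1) (by linarith : 0 ≤ 1 / 2 - q)]
    · rw [div_le_iff₀ hd]
      nlinarith [mul_nonneg (by linarith : 0 ≤ 1 - p) q0.le,
        mul_nonneg q0.le (by linarith : 0 ≤ 1 / 2 - q)]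

/-- the quadratic inequality with equality at the affine-regular pentagon -/
theorem quad {c B m : ℝ} (hc : 5 * c ^ 2 + 5 * c = 1) (c0 : 0 < c) (c1 : c < 1 / 2) (hB : 0 ≤ B)
    (hm : B ≤ m) (hu : c * (1 + B + m) ≤ 1 - m) :
    (B ^ 2 + m ^ 2) / 2 ≤ c * (1 + B + m) := by
  have hU : 0 ≤ 1 - m - c * (1 + B + m) := by linarith
  have hD : 0 ≤ m - B := by linarith
  have key : (1 - c) ^ 2 * (c * (1 + B + m) - (B ^ 2 + m ^ 2) / 2) =
      c * (1 - m - c * (1 + B + m)) ^ 2 + (4 * c + 2 * c ^ 2) * ((1 - m - c * (1 + B + m)) * B)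
      + (3 * c + c ^ 2) * ((1 - m - c * (1 + B + m)) * (m - B))
      + (2 * c + c ^ 2) * (B * (m - B)) + c * (1 / 2 - c) * (m - B) ^ 2 := by
    linear_combination (B ^ 2 + B * (m - B) + (m - B) ^ 2 / 2) * hc
  have k1 := mul_nonneg hU hB
  have k2 := mul_nonneg hU hD
  have k3 := mul_nonneg hB hD
  have k4 : 0 ≤ c * (1 / 2 - c) * (m - B) ^ 2 :=
    mul_nonneg (mul_nonneg c0.le (by linarith)) (sq_nonneg _)
  have k5 : 0 ≤ (1 - c) ^ 2 * (c * (1 + B + m) - (B ^ 2 + m ^ 2) / 2) := by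
    rw [key]
    positivity
  have k6 : 0 < (1 - c) ^ 2 := by
    apply pow_pos
    linarith
  have := (mul_nonneg_iff_of_pos_left k6).1 k5
  linarith

theorem narrow {c t W : ℝ} (c0 : 1 / 6 < c) (c1 : c < 1 / 2) (h1 : W ≤ 1 / 4) (h2 : W ≤ t / 2) :
    W ≤ c * (1 + t) := by
  by_contra hc
  push Not at hc
  have e1 : c * (1 + t) < 1 / 4 := by linarith
  have e2 : c * (1 + t) < t / 2 := by linarith
  nlinarith [mul_pos (by linarith : 0 < 1 / 2 - c) (by linarith : 0 < 1 / 4 - c * (1 + t)),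
    mul_pos (by linarith : 0 < c) (by linarith : 0 < t / 2 - c * (1 + t))]

/-- both extra points reach beyond the base -/
theorem T5.wide {K : Set (ℝ × ℝ)} {p q p' q' c : ℝ} (h : T5 K p q p' q')
    (hc : 5 * c ^ 2 + 5 * c = 1) (c0 : 1 / 6 < c) (c1 : c < 1 / 2) (hp : 1 ≤ p) (hp' : 1 ≤ p')
    (hle : p + q ≤ p' + q') : Cov K ((1 + c) * ((p + q) / 2 + (p' + q') / 2)) := by
  have q0 := h.q0
  have b0 := h.b0
  have q1 := h.q1
  have q0' := h.q0'
  have b0' := h.b0'
  have q1' := h.q1'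
  have pq := h.pq
  have pq' := h.pq'
  set B : ℝ := (p + q - 1) / 2 with hB
  set m : ℝ := (p' + q' - 1) / 2 with hm
  have hV : (p + q) / 2 + (p' + q') / 2 = 1 + B + m := by rw [hB, hm]; ring
  rcases le_or_gt (1 - m) (c * (1 + B + m)) with h1 | h1
  · refine cov_mono (Cov_mir h.mirror.low) subset_rfl ?_
    have e : m * (1 - q') / q' ≤ 1 - m := by
      rw [div_le_iff₀ q0']
      have : m ≤ q' := by rw [hm]; linarith
      nlinarith [mul_nonneg (by linarith : 0 ≤ q' - m) (by linarith : 0 ≤ 1 - q'),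
        mul_nonneg (by linarith : 0 ≤ q' - m) q0'.le]
    rw [hV]
    have e2 : (p' + q') / 2 + (p + q) / 2 = 1 + B + m := by rw [hB, hm]; ring
    rw [e2]
    linarith
  · refine cov_mono (h.covF hp hp') subset_rfl ?_
    have e := quad hc (by linarith) c1 (B := B) (m := m) (by rw [hB]; linarith)
      (by rw [hB, hm]; linarith) h1.le
    rw [hV]
    have e1 : p = 2 * B + 1 - q := by rw [hB]; ring
    have e2 : p' = 2 * m + 1 - q' := by rw [hm]; ring
    rw [e1, e2]
    nlinarith [sq_nonneg (B - q), sq_nonneg (m - q')]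

theorem T5.thin {K : Set (ℝ × ℝ)} {p q p' q' c : ℝ} (h : T5 K p q p' q')
    (c0 : 1 / 6 < c) (c1 : c < 1 / 2) (hp : p ≤ 1) :
    Cov K ((1 + c) * ((p + q) / 2 + (p' + q') / 2)) := by
  obtain ⟨W, hW, w1, w2⟩ := h.wR
  obtain ⟨W', hW', w1', -⟩ := h.mirror.wR
  have w2 := w2 hp
  set B : ℝ := (p + q - 1) / 2 with hB
  set m : ℝ := (p' + q' - 1) / 2 with hm
  have hV : (p + q) / 2 + (p' + q') / 2 = 1 + (B + m) := by rw [hB, hm]; ring
  have hV' : (p' + q') / 2 + (p + q) / 2 = 1 + (B + m) := by rw [hB, hm]; ring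
  rw [hV] at hW ⊢
  rw [hV'] at hW'
  rcases le_or_gt B m with h1 | h1
  · refine cov_mono hW subset_rfl ?_
    have := narrow c0 c1 (t := B + m) w2 (by linarith)
    linarith
  · rcases le_or_gt m (1 / 4) with h2 | h2
    · refine cov_mono (Cov_mir hW') subset_rfl ?_
      have := narrow c0 c1 (t := B + m) (W := W') (by linarith) (by linarith)
      linarith
    · refine cov_mono hW subset_rfl ?_
      have := narrow c0 c1 (t := B + m) w2 (by linarith)
      linarith

theorem T5.main {K : Set (ℝ × ℝ)} {p q p' q' c : ℝ} (h : T5 K p q p' q')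
    (hc : 5 * c ^ 2 + 5 * c = 1) (c0 : 1 / 6 < c) (c1 : c < 1 / 2) :
    Cov K ((1 + c) * ((p + q) / 2 + (p' + q') / 2)) := by
  have e : (p + q) / 2 + (p' + q') / 2 = (p' + q') / 2 + (p + q) / 2 := add_comm _ _
  rcases le_or_gt p 1 with hp | hp
  · exact h.thin c0 c1 hp
  rcases le_or_gt p' 1 with hp' | hp'
  · rw [e]
    exact Cov_mir (h.mirror.thin c0 c1 hp')
  rcases le_total (p + q) (p' + q') with hle | hle
  · exact h.wide hc c0 c1 hp.le hp'.le hle
  · rw [e]
    exact Cov_mir (h.mirror.wide hc c0 c1 hp'.le hp.le hle)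

end Pool.Agent.Helper8.PH5
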