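import Pool.Agent.Helper8.PH5.CaseB

/-!
# MP_8bf717_co, polygons with at most five vertices: the upper bound
-/

set_option autoImplicit false

open MeasureTheory Set

namespace Pool.Agent.Helper8.PH5

open Pool.Agent.Helper27.PHU Pool.Agent.Helper37.PH Pool.Agent.Helper61.PH
open Pool.Agent.Helper83.PHU Pool.Agent.Helper85.PHU Pool.Agent.Helper23.PHU

/-- the normalised set -/
def N5 (x y x' y' : ℝ) : Set (ℝ × ℝ) := {(-1, 0), (1, 0), (0, 1), (x, y), (x', y')}

theorem N5_swap (x y x' y' : ℝ) : N5 x y x' y' = N5 x' y' x y := by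
  unfold N5
  ext z
  simp only [mem_insert_iff, mem_singleton_iff]
  tauto

theorem N5_half {x y x' y' : ℝ} {u v w : ℝ} (h1 : -u ≤ w) (h2 : u ≤ w) (h3 : v ≤ w)
    (h4 : u * x + v * y ≤ w) (h5 : u * x' + v * y' ≤ w) :
    ∀ z ∈ convexHull ℝ (N5 x y x' y'), u * z.1 + v * z.2 ≤ w := by
  have hc : Convex ℝ {z : ℝ × ℝ | u * z.1 + v * z.2 ≤ w} := by
    intro p hp q hq a b ha hb hab
    have hp : u * p.1 + v * p.2 ≤ w := hp
    have hq : u * q.1 + v * q.2 ≤ w := hq
    show u * (a * p.1 + b * q.1) + v * (a * p.2 + b * q.2) ≤ w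
    have k1 := mul_le_mul_of_nonneg_left hp ha
    have k2 := mul_le_mul_of_nonneg_left hq hb
    have k3 : w = a * w + b * w := by rw [← add_mul, hab, one_mul]
    linarith
  have hs : N5 x y x' y' ⊆ {z : ℝ × ℝ | u * z.1 + v * z.2 ≤ w} := by
    intro z hz
    simp only [N5, mem_insert_iff, mem_singleton_iff] at hz
    show u * z.1 + v * z.2 ≤ w
    rcases hz with rfl | rfl | rfl | rfl | rfl
    · simp only; linarith
    · simp only; linarith
    · simp only; linarith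
    · simp only; linarith
    · simp only; linarith
  intro z hz
  exact convexHull_min hs hc hz

theorem caseC {x y x' y' c : ℝ} (hy : y ≤ 1) (hx : x ≤ 1 + y) (hxy : 1 < x + y) (hy' : y' ≤ 1)
    (hx' : -x' ≤ 1 + y') (hxy' : 1 < -x' + y') (hc : 5 * c ^ 2 + 5 * c = 1) (c0 : 1 / 6 < c)
    (c1 : c < 1 / 2) :
    ∃ V : ℝ, 0 ≤ V ∧ Cov (convexHull ℝ (N5 x y x' y')) ((1 + c) * V) ∧
      ENNReal.ofReal V ≤ volume (convexHull ℝ (N5 x y x' y')) := by
  have hsub : N5 x y x' y' ⊆ convexHull ℝ (N5 x y x' y') := subset_convexHull ℝ _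
  have h : T5 (convexHull ℝ (N5 x y x' y')) x y (-x') y' :=
    { conv := convex_convexHull ℝ _
      mA := hsub (by simp [N5])
      mB := hsub (by simp [N5])
      mC := hsub (by simp [N5])
      mE := hsub (by simp [N5])
      mF := hsub (by simp [N5])
      hull := fun u v w h1 h2 h3 h4 h5 => N5_half h1 h2 h3 h4 (by linarith)
      b0 := hxy
      q1 := hy
      pq := hx
      b0' := hxy'
      q1' := hy'
      pq' := hx' }
  exact ⟨_, by linarith, h.main hc c0 c1, h.vol⟩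

theorem body_mir {K : Set (ℝ × ℝ)} (h : IsBody K) : IsBody (mir K) := by
  rw [mir_eq]
  exact body_image h _

theorem norm_main {x y x' y' c : ℝ} (hb : IsBody (convexHull ℝ (N5 x y x' y')))
    (hy0 : 0 ≤ y) (hy : y ≤ 1) (hx : x ≤ 1 + y) (hx2 : -x ≤ 1 + y)
    (hy0' : 0 ≤ y') (hy' : y' ≤ 1) (hx' : x' ≤ 1 + y') (hx2' : -x' ≤ 1 + y')
    (hc : 5 * c ^ 2 + 5 * c = 1) (c0 : 1 / 6 < c) (c1 : c < 1 / 2) :
    ∃ V : ℝ, 0 ≤ V ∧ Cov (convexHull ℝ (N5 x y x' y')) ((1 + c) * V) ∧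
      ENNReal.ofReal V ≤ volume (convexHull ℝ (N5 x y x' y')) := by
  have hsub : N5 x y x' y' ⊆ convexHull ℝ (N5 x y x' y') := subset_convexHull ℝ _
  have mA : ((-1 : ℝ), (0 : ℝ)) ∈ convexHull ℝ (N5 x y x' y') := hsub (by simp [N5])
  have mB : ((1 : ℝ), (0 : ℝ)) ∈ convexHull ℝ (N5 x y x' y') := hsub (by simp [N5])
  have mC : ((0 : ℝ), (1 : ℝ)) ∈ convexHull ℝ (N5 x y x' y') := hsub (by simp [N5])
  have y0 : ∀ z ∈ convexHull ℝ (N5 x y x' y'), 0 ≤ z.2 := by
    intro z hz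
    have := N5_half (u := 0) (v := -1) (w := 0) (by linarith) (by linarith) (by linarith)
      (by linarith) (by linarith) z hz
    linarith
  have y1 : ∀ z ∈ convexHull ℝ (N5 x y x' y'), z.2 ≤ 1 := by
    intro z hz
    have := N5_half (u := 0) (v := 1) (w := 1) (by linarith) (by linarith) (by linarith)
      (by linarith) (by linarith) z hz
    linarith
  have xr : ∀ z ∈ convexHull ℝ (N5 x y x' y'), z.1 ≤ 1 + z.2 := by
    intro z hz
    have := N5_half (u := 1) (v := -1) (w := 1) (by linarith) (by linarith) (by linarith)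
      (by linarith) (by linarith) z hz
    linarith
  have xl : ∀ z ∈ convexHull ℝ (N5 x y x' y'), -z.1 ≤ 1 + z.2 := by
    intro z hz
    have := N5_half (u := -1) (v := -1) (w := 1) (by linarith) (by linarith) (by linarith)
      (by linarith) (by linarith) z hz
    linarith
  by_cases hR : x + y ≤ 1 ∧ x' + y' ≤ 1
  · have r : ∀ z ∈ convexHull ℝ (N5 x y x' y'), z.1 + z.2 ≤ 1 := by
      intro z hz
      have := N5_half (u := 1) (v := 1) (w := 1) (by linarith) (by linarith) (by linarith)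
        (by linarith [hR.1]) (by linarith [hR.2]) z hz
      linarith
    exact caseB hb mA mB mC y0 y1 r xl c0
  by_cases hL : -x + y ≤ 1 ∧ -x' + y' ≤ 1
  · have l : ∀ z ∈ convexHull ℝ (N5 x y x' y'), -z.1 + z.2 ≤ 1 := by
      intro z hz
      have := N5_half (u := -1) (v := 1) (w := 1) (by linarith) (by linarith) (by linarith)
        (by linarith [hL.1]) (by linarith [hL.2]) z hz
      linarith
    have mA' := mem_mir mB
    have mB' := mem_mir mA
    have mC' := mem_mir mC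
    rw [neg_neg] at mB'
    rw [neg_zero] at mC'
    obtain ⟨V, V0, hV, hvol⟩ := caseB (body_mir hb) mA' mB' mC'
      (by rintro _ ⟨z, hz, rfl⟩; exact y0 z hz) (by rintro _ ⟨z, hz, rfl⟩; exact y1 z hz)
      (by rintro _ ⟨z, hz, rfl⟩; exact l z hz)
      (by
        rintro _ ⟨z, hz, rfl⟩
        show - -z.1 ≤ 1 + z.2
        rw [neg_neg]
        exact xr z hz) c0
    rw [vol_mir] at hvol
    exact ⟨V, V0, Cov_mir hV, hvol⟩
  · rw [not_and_or, not_le, not_le] at hR hL
    rcases hR with hR | hR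
    · rcases hL with hL | hL
      · linarith
      · exact caseC hy hx hR hy' hx2' hL hc c0 c1
    · rcases hL with hL | hL
      · rw [N5_swap]
        exact caseC hy' hx' hR hy hx2 hL hc c0 c1
      · linarith

theorem exists_aff {a b c : ℝ × ℝ} (hD : cr (b - a) (c - a) ≠ 0) :
    ∃ (L : (ℝ × ℝ) ≃ₗ[ℝ] (ℝ × ℝ)) (m : ℝ × ℝ), ∀ q : ℝ × ℝ, affE L m q =
      (-1 + (2 * cr (q - a) (c - a) + cr (b - a) (q - a)) / cr (b - a) (c - a),
        cr (b - a) (q - a) / cr (b - a) (c - a)) := by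
  set u : ℝ × ℝ := b - a with hu
  set w : ℝ × ℝ := c - a with hw
  set D : ℝ := cr u w with hDd
  have hD' : D = u.1 * w.2 - u.2 * w.1 := rfl
  set M : Matrix (Fin 2) (Fin 2) ℝ :=
    !![(2 * w.2 - u.2) / D, (u.1 - 2 * w.1) / D; -u.2 / D, u.1 / D] with hM
  set L0 : (ℝ × ℝ) →ₗ[ℝ] (ℝ × ℝ) :=
    Matrix.toLin (Module.Basis.finTwoProd ℝ) (Module.Basis.finTwoProd ℝ) M with hL0
  have hL0a : ∀ x : ℝ × ℝ, L0 x =
      ((2 * cr x w + cr u x) / D, cr u x / D) := by
    intro x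
    rw [hL0, hM, Matrix.toLin_finTwoProd_apply]
    ext
    · show (2 * w.2 - u.2) / D * x.1 + (u.1 - 2 * w.1) / D * x.2 =
        (2 * (x.1 * w.2 - x.2 * w.1) + (u.1 * x.2 - u.2 * x.1)) / D
      ring
    · show -u.2 / D * x.1 + u.1 / D * x.2 = (u.1 * x.2 - u.2 * x.1) / D
      ring
  have hdet : LinearMap.det L0 = 2 / D := by
    rw [hL0, LinearMap.det_toLin, hM, Matrix.det_fin_two_of]
    field_simp
    rw [hD']
    ring
  have hdet0 : LinearMap.det L0 ≠ 0 := by
    rw [hdet]; exact div_ne_zero two_ne_zero hD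
  set L : (ℝ × ℝ) ≃ₗ[ℝ] (ℝ × ℝ) := L0.equivOfDetNeZero hdet0 with hL
  have hLa : ∀ x, L x = ((2 * cr x w + cr u x) / D, cr u x / D) := fun x => hL0a x
  refine ⟨L, a + (1 / 2 : ℝ) • u, fun q => ?_⟩
  rw [affE_apply, hLa]
  ext
  · simp only [cr, Prod.fst_sub, Prod.snd_sub, Prod.fst_add, Prod.snd_add, Prod.smul_fst,
      Prod.smul_snd, smul_eq_mul]
    field_simp
    rw [hD']
    ring
  · simp only [cr, Prod.fst_sub, Prod.snd_sub, Prod.fst_add, Prod.snd_add, Prod.smul_fst,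
      Prod.smul_snd, smul_eq_mul]
    ring

theorem hstar_le {K : Set (ℝ × ℝ)} {C : ℝ} (h : Cov K C) : hstar K ≤ ENNReal.ofReal C := by
  apply ENNReal.le_of_forall_pos_le_add
  intro ε hε _
  obtain ⟨P, hP, hsub, hle⟩ := h ε hε
  rw [ENNReal.ofReal_coe_nnreal] at hle
  refine le_trans ?_ hle
  unfold hstar
  exact iInf₂_le P ⟨hP, hsub⟩

theorem five {K : Set (ℝ × ℝ)} {a b c d e : ℝ × ℝ} {k : ℝ} (hK : IsBody K)
    (hvol : volume K = 1) (hKe : K = convexHull ℝ {a, b, c, d, e})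
    (hD : cr (b - a) (c - a) ≠ 0)
    (hmax : ∀ p ∈ ({a, b, c, d, e} : Set (ℝ × ℝ)), ∀ q ∈ ({a, b, c, d, e} : Set (ℝ × ℝ)),
      ∀ r ∈ ({a, b, c, d, e} : Set (ℝ × ℝ)), |cr (q - p) (r - p)| ≤ |cr (b - a) (c - a)|)
    (hd : 0 ≤ cr (b - a) (d - a) / cr (b - a) (c - a))
    (he : 0 ≤ cr (b - a) (e - a) / cr (b - a) (c - a))
    (hk : 5 * k ^ 2 + 5 * k = 1) (k0 : 1 / 6 < k) (k1 : k < 1 / 2) :
    hstar K ≤ ENNReal.ofReal (1 + k) := by
  obtain ⟨L, m, hA⟩ := exists_aff hD
  set D := cr (b - a) (c - a) with hDd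
  set S : Set (ℝ × ℝ) := {a, b, c, d, e} with hS
  have ma : a ∈ S := by simp [hS]
  have mb : b ∈ S := by simp [hS]
  have mc : c ∈ S := by simp [hS]
  have hDa : 0 < |D| := abs_pos.2 hD
  have bd : ∀ p ∈ S, ∀ q ∈ S, ∀ r ∈ S, |cr (q - p) (r - p) / D| ≤ 1 := by
    intro p hp q hq r hr
    rw [abs_div, div_le_one hDa]
    exact hmax p hp q hq r hr
  have pt : ∀ z ∈ S, (affE L m z).2 ≤ 1 ∧ (affE L m z).1 ≤ 1 + (affE L m z).2 ∧
      -(affE L m z).1 ≤ 1 + (affE L m z).2 := by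
    intro z hz
    rw [hA]
    have h1 := abs_le.1 (bd a ma b mb z hz)
    have h2 := abs_le.1 (bd a ma z hz c mc)
    have h3 := abs_le.1 (bd z hz b mb c mc)
    have e1 : cr (b - z) (c - z) / D = 1 - cr (z - a) (c - a) / D - cr (b - a) (z - a) / D := by
      field_simp
      rw [hDd]
      simp only [cr, Prod.fst_sub, Prod.snd_sub]
      ring
    rw [e1] at h3
    have e2 : (2 * cr (z - a) (c - a) + cr (b - a) (z - a)) / D =
        2 * (cr (z - a) (c - a) / D) + cr (b - a) (z - a) / D := by ring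
    simp only
    rw [e2]
    exact ⟨by linarith [h1.2], by linarith [h2.2], by linarith [h3.2, h2.1]⟩
  have hAa : affE L m a = (-1, 0) := by
    rw [hA, sub_self]
    simp [cr]
  have hAb : affE L m b = (1, 0) := by
    rw [hA]
    have e2 : cr (b - a) (b - a) = 0 := by unfold cr; ring
    rw [e2, ← hDd]
    ext
    · show -1 + (2 * D + 0) / D = 1
      field_simp
      ring
    · simp
  have hAc : affE L m c = (0, 1) := by
    rw [hA]
    have e1 : cr (c - a) (c - a) = 0 := by unfold cr; ring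
    rw [e1, ← hDd]
    ext
    · show -1 + (2 * 0 + D) / D = 0
      field_simp
      ring
    · show D / D = 1
      exact div_self hD
  obtain ⟨x, y, hAd⟩ : ∃ x y : ℝ, affE L m d = (x, y) := ⟨_, _, rfl⟩
  obtain ⟨x', y', hAe⟩ : ∃ x y : ℝ, affE L m e = (x, y) := ⟨_, _, rfl⟩
  have hy0 : 0 ≤ y := by
    have := hA d
    rw [hAd] at this
    have h2 : y = _ := congrArg Prod.snd this
    rw [h2]
    exact hd
  have hy0' : 0 ≤ y' := by
    have := hA e
    rw [hAe] at this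
    have h2 : y' = _ := congrArg Prod.snd this
    rw [h2]
    exact he
  have pd := pt d (by simp [hS])
  have pe := pt e (by simp [hS])
  rw [hAd] at pd
  rw [hAe] at pe
  have himg : affE L m '' K = convexHull ℝ (N5 x y x' y') := by
    have e1 : affE L m '' S = N5 x y x' y' := by
      rw [hS]
      simp only [image_insert_eq, image_singleton, hAa, hAb, hAc, hAd, hAe]
      rfl
    rw [hKe, ← e1]
    exact (affE L m).toAffineMap.image_convexHull S
  have hbody : IsBody (convexHull ℝ (N5 x y x' y')) := by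
    rw [← himg]
    exact body_image hK _
  obtain ⟨V, V0, hcov, hV⟩ := norm_main hbody hy0 pd.1 pd.2.1 pd.2.2 hy0' pe.1 pe.2.1 pe.2.2
    hk k0 k1
  rw [← himg] at hcov hV
  rw [volume_affE, hvol, mul_one] at hV
  have hV2 : V ≤ |LinearMap.det (L : (ℝ × ℝ) →ₗ[ℝ] (ℝ × ℝ))| :=
    (ENNReal.ofReal_le_ofReal_iff (abs_nonneg _)).1 hV
  apply hstar_le
  apply Cov_affE L m
  refine cov_mono hcov subset_rfl ?_
  rw [mul_comm]
  exact mul_le_mul_of_nonneg_right hV2 (by linarith)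

/-- the range of the cross product on a convex hull -/
theorem cr_hull {S : Set (ℝ × ℝ)} {M : ℝ}
    (h : ∀ p ∈ S, ∀ q ∈ S, ∀ r ∈ S, |cr (q - p) (r - p)| ≤ M) :
    ∀ p ∈ convexHull ℝ S, ∀ q ∈ convexHull ℝ S, ∀ r ∈ convexHull ℝ S,
      |cr (q - p) (r - p)| ≤ M := by
  have conv : ∀ f : ℝ × ℝ → ℝ, (∀ (u v : ℝ × ℝ) (s t : ℝ), s + t = 1 →
      f (s • u + t • v) = s * f u + t * f v) → Convex ℝ {z : ℝ × ℝ | |f z| ≤ M} := by
    intro f hf u hu v hv s t hs ht hst
    have hu : |f u| ≤ M := hu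
    have hv : |f v| ≤ M := hv
    show |f (s • u + t • v)| ≤ M
    rw [hf u v s t hst]
    rw [abs_le] at hu hv ⊢
    have k : M = s * M + t * M := by rw [← add_mul, hst, one_mul]
    constructor
    · have h1 := mul_le_mul_of_nonneg_left hu.1 hs
      have h2 := mul_le_mul_of_nonneg_left hv.1 ht
      linarith
    · have h1 := mul_le_mul_of_nonneg_left hu.2 hs
      have h2 := mul_le_mul_of_nonneg_left hv.2 ht
      linarith
  have s1 : ∀ p ∈ S, ∀ q ∈ S, ∀ r ∈ convexHull ℝ S, |cr (q - p) (r - p)| ≤ M := by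
    intro p hp q hq
    apply convexHull_min (fun r hr => h p hp q hq r hr)
    apply conv (fun r => cr (q - p) (r - p))
    intro u v s t hst
    have : s = 1 - t := by linarith
    subst this
    simp only [cr, Prod.fst_sub, Prod.snd_sub, Prod.fst_add, Prod.snd_add, Prod.smul_fst,
      Prod.smul_snd, smul_eq_mul]
    ring
  have s2 : ∀ p ∈ S, ∀ q ∈ convexHull ℝ S, ∀ r ∈ convexHull ℝ S,
      |cr (q - p) (r - p)| ≤ M := by
    intro p hp q hq r hr
    revert q
    apply convexHull_min (fun q hq => s1 p hp q hq r hr)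
    apply conv (fun q => cr (q - p) (r - p))
    intro u v s t hst
    have : s = 1 - t := by linarith
    subst this
    simp only [cr, Prod.fst_sub, Prod.snd_sub, Prod.fst_add, Prod.snd_add, Prod.smul_fst,
      Prod.smul_snd, smul_eq_mul]
    ring
  intro p hp q hq r hr
  revert p
  apply convexHull_min (fun p hp => s2 p hp q hq r hr)
  apply conv (fun p => cr (q - p) (r - p))
  intro u v s t hst
  have : s = 1 - t := by linarith
  subst this
  simp only [cr, Prod.fst_sub, Prod.snd_sub, Prod.fst_add, Prod.snd_add, Prod.smul_fst,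
    Prod.smul_snd, smul_eq_mul]
  ring

theorem fin5 : ∀ i j l : Fin 5, i ≠ j → j ≠ l → i ≠ l → ∃ m n : Fin 5, ∀ x : Fin 5,
    x = i ∨ x = j ∨ x = l ∨ x = m ∨ x = n := by decide

/-- the upper bound for hulls of at most five points -/
theorem upper {K : Set (ℝ × ℝ)} {k : ℝ} (hK : IsBody K) (hvol : volume K = 1)
    {s : Finset (ℝ × ℝ)} (hs : s.card ≤ 5) (hKs : K = convexHull ℝ (s : Set (ℝ × ℝ)))
    (hk : 5 * k ^ 2 + 5 * k = 1) (k0 : 1 / 6 < k) (k1 : k < 1 / 2) :
    hstar K ≤ ENNReal.ofReal (1 + k) := by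
  have hne : s.Nonempty := by
    by_contra hc
    rw [Finset.not_nonempty_iff_eq_empty] at hc
    have h1 : K = ∅ := by rw [hKs, hc]; simp
    obtain ⟨z, hz⟩ := hK.interior_nonempty
    rw [h1] at hz
    simp at hz
  -- enumerate the points
  obtain ⟨f, hf⟩ : ∃ f : Fin 5 → ℝ × ℝ, range f = (s : Set (ℝ × ℝ)) := by
    obtain ⟨z0, hz0⟩ := hne
    have e := s.equivFin
    refine ⟨fun i => if h : i.1 < s.card then (e.symm ⟨i.1, h⟩).1 else z0, ?_⟩
    ext z
    constructor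
    · rintro ⟨i, rfl⟩
      dsimp only
      split_ifs with h
      · exact (e.symm ⟨i.1, h⟩).2
      · exact hz0
    · intro hz
      have h2 := (e ⟨z, hz⟩).2
      refine ⟨⟨(e ⟨z, hz⟩).1, by omega⟩, ?_⟩
      dsimp only
      rw [dif_pos h2]
      simp
  -- a triple of maximal area
  obtain ⟨⟨i, j, l⟩, hmax⟩ := Finite.exists_max (fun t : Fin 5 × Fin 5 × Fin 5 =>
    |cr (f t.2.1 - f t.1) (f t.2.2 - f t.1)|)
  simp only at hmax
  have hmaxS : ∀ p ∈ (s : Set (ℝ × ℝ)), ∀ q ∈ (s : Set (ℝ × ℝ)), ∀ r ∈ (s : Set (ℝ × ℝ)),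
      |cr (q - p) (r - p)| ≤ |cr (f j - f i) (f l - f i)| := by
    rw [← hf]
    rintro _ ⟨p, rfl⟩ _ ⟨q, rfl⟩ _ ⟨r, rfl⟩
    exact hmax (p, q, r)
  have hD : cr (f j - f i) (f l - f i) ≠ 0 := by
    intro h0
    rw [h0, abs_zero] at hmaxS
    obtain ⟨a, ha, b, hb, c, hc, hne, -⟩ := exists_max_triangle hK
    rw [hKs] at ha hb hc
    have := cr_hull hmaxS a ha b hb c hc
    exact hne (abs_nonpos_iff.1 this)
  have hij : i ≠ j := by
    rintro rfl
    apply hD
    rw [sub_self]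
    simp [cr]
  have hil : i ≠ l := by
    rintro rfl
    apply hD
    rw [sub_self]
    simp [cr]
  have hjl : j ≠ l := by
    rintro rfl
    apply hD
    unfold cr
    ring
  obtain ⟨m, n, hmn⟩ := fin5 i j l hij hjl hil
  have hset : (s : Set (ℝ × ℝ)) = {f i, f j, f l, f m, f n} := by
    rw [← hf]
    ext z
    simp only [mem_range, mem_insert_iff, mem_singleton_iff]
    constructor
    · rintro ⟨x, rfl⟩
      rcases hmn x with h | h | h | h | h <;> rw [h] <;> simp
    · rintro (h | h | h | h | h)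
      · exact ⟨i, h.symm⟩
      · exact ⟨j, h.symm⟩
      · exact ⟨l, h.symm⟩
      · exact ⟨m, h.symm⟩
      · exact ⟨n, h.symm⟩
  rw [hset] at hmaxS hKs
  clear hf hmax hmn hset hs hne
  generalize f i = a at *
  generalize f j = b at *
  generalize f l = c at *
  generalize f m = d at *
  generalize f n = e at *
  set S : Set (ℝ × ℝ) := {a, b, c, d, e} with hS
  have ma : a ∈ S := by simp [hS]
  have mb : b ∈ S := by simp [hS]
  have mc : c ∈ S := by simp [hS]
  have md : d ∈ S := by simp [hS]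
  have me : e ∈ S := by simp [hS]
  set D := cr (b - a) (c - a) with hDd
  have hDa : 0 < |D| := abs_pos.2 hD
  have bd : ∀ p ∈ S, ∀ q ∈ S, ∀ r ∈ S, |cr (q - p) (r - p) / D| ≤ 1 := by
    intro p hp q hq r hr
    rw [abs_div, div_le_one hDa]
    exact hmaxS p hp q hq r hr
  -- cyclic shifts
  have e1 : cr (c - b) (a - b) = D := by
    rw [hDd]; simp only [cr, Prod.fst_sub, Prod.snd_sub]; ring
  have e2 : cr (a - c) (b - c) = D := by
    rw [hDd]; simp only [cr, Prod.fst_sub, Prod.snd_sub]; ring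
  have hS1 : S = {b, c, a, d, e} := by
    rw [hS]; ext z; simp only [mem_insert_iff, mem_singleton_iff]; tauto
  have hS2 : S = {c, a, b, d, e} := by
    rw [hS]; ext z; simp only [mem_insert_iff, mem_singleton_iff]; tauto
  have sum1 : ∀ z : ℝ × ℝ, cr (b - a) (z - a) / D + cr (c - b) (z - b) / D +
      cr (a - c) (z - c) / D = 1 := by
    intro z
    rw [← add_div, ← add_div, div_eq_one_iff_eq hD, hDd]
    simp only [cr, Prod.fst_sub, Prod.snd_sub]; ring
  have upb : ∀ z ∈ S, cr (b - a) (z - a) / D ≤ 1 ∧ cr (c - b) (z - b) / D ≤ 1 ∧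
      cr (a - c) (z - c) / D ≤ 1 := fun z hz =>
    ⟨(abs_le.1 (bd a ma b mb z hz)).2, (abs_le.1 (bd b mb c mc z hz)).2,
      (abs_le.1 (bd c mc a ma z hz)).2⟩
  have ud := upb d md
  have ue := upb e me
  have sd := sum1 d
  have se := sum1 e
  have three : (0 ≤ cr (b - a) (d - a) / D ∧ 0 ≤ cr (b - a) (e - a) / D) ∨
      (0 ≤ cr (c - b) (d - b) / D ∧ 0 ≤ cr (c - b) (e - b) / D) ∨
      (0 ≤ cr (a - c) (d - c) / D ∧ 0 ≤ cr (a - c) (e - c) / D) := by
    by_contra hcon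
    rw [not_or, not_or, not_and_or, not_and_or, not_and_or] at hcon
    simp only [not_le] at hcon
    obtain ⟨h1, h2, h3⟩ := hcon
    rcases h1 with h1 | h1 <;> rcases h2 with h2 | h2 <;> rcases h3 with h3 | h3 <;> linarith
  rcases three with ⟨h1, h2⟩ | ⟨h1, h2⟩ | ⟨h1, h2⟩
  · exact five hK hvol hKs hD hmaxS h1 h2 hk k0 k1
  · have hKs1 := hKs
    rw [hS1] at hKs1 hmaxS
    rw [← e1] at hD hmaxS h1 h2
    exact five hK hvol hKs1 hD hmaxS h1 h2 hk k0 k1
  · have hKs1 := hKs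
    rw [hS2] at hKs1 hmaxS
    rw [← e2] at hD hmaxS h1 h2
    exact five hK hvol hKs1 hD hmaxS h1 h2 hk k0 k1

end Pool.Agent.Helper8.PH5
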