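import Pool.Agent.Helper8.PH5.CaseC
import Pool.Agent.Helper21.PHU.Exist

/-!
# MP_8bf717_co, polygons with at most five vertices: no point beyond the right side
-/

set_option autoImplicit false

open MeasureTheory Set

namespace Pool.Agent.Helper8.PH5

open Pool.Agent.Helper27.PHU Pool.Agent.Helper37.PH Pool.Agent.Helper61.PH
open Pool.Agent.Helper83.PHU Pool.Agent.Helper85.PHU Pool.Agent.Helper23.PHU
open Pool.Agent.Helper21.PHU

/-- the support line at the left boundary point at height `t` -/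
theorem left_line {K : Set (ℝ × ℝ)} (hK : IsBody K) (mA : ((-1 : ℝ), (0 : ℝ)) ∈ K)
    (mB : ((1 : ℝ), (0 : ℝ)) ∈ K) (mC : ((0 : ℝ), (1 : ℝ)) ∈ K) {t : ℝ} (t0 : 0 < t)
    (t1 : t < 1) :
    ∃ X s : ℝ, (-X, t) ∈ K ∧ 1 - t ≤ X ∧ ∀ q ∈ K, -q.1 ≤ X + s * (q.2 - t) := by
  have m1 : (-(1 - t), t) ∈ K := by
    have := conv_comb hK.convex mA mC t0.le t1.le
    simp only at this
    convert this using 2 <;> ring
  have m2 : (1 - t, t) ∈ K := by
    have := conv_comb hK.convex mB mC t0.le t1.le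
    simp only at this
    convert this using 2 <;> ring
  have hcl : IsClosed {z : ℝ × ℝ | z.2 = t} := isClosed_eq continuous_snd continuous_const
  obtain ⟨A, ⟨hAK, hAt⟩, hmin⟩ := (hK.compact.inter_right hcl).exists_isMinOn ⟨_, m1, rfl⟩
    continuous_fst.continuousOn
  have hAt' : A.2 = t := hAt
  have hmin' : ∀ x : ℝ, (x, t) ∈ K → A.1 ≤ x := fun x hx => hmin ⟨hx, rfl⟩
  have hAint : A ∉ interior K := by
    intro hA
    obtain ⟨ε, hε, hs⟩ := int_step hA (-1, 0)
    have e : A + ε • ((-1 : ℝ), (0 : ℝ)) = (A.1 - ε, t) := by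
      ext
      · simp [sub_eq_add_neg]
      · simp [hAt']
    rw [e] at hs
    have := hmin' _ hs
    linarith
  obtain ⟨z, hz1, hz2⟩ := support hK hAint
  have hA1 : A.1 ≤ -(1 - t) := hmin' _ m1
  simp only [dt, Prod.fst_sub, Prod.snd_sub] at hz1 hz2
  have k1 := hz2 _ mA
  have k2 := hz2 _ mC
  have k3 := hz2 _ m2
  have k4 := hz2 _ m1
  simp only [hAt', sub_self, mul_zero, add_zero] at k1 k2 k3 k4
  have hn : z.1 < 0 := by
    by_contra hc
    push Not at hc
    have e1 : z.1 = 0 := by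
      by_contra hne
      have : 0 < z.1 := lt_of_le_of_ne hc (Ne.symm hne)
      nlinarith
    rw [e1] at k1 k2 hz1
    have e2 : z.2 = 0 := by
      apply le_antisymm
      · by_contra h
        push Not at h
        nlinarith
      · by_contra h
        push Not at h
        nlinarith
    rw [e2] at hz1
    norm_num at hz1
  refine ⟨-A.1, z.2 / z.1, ?_, by linarith, fun q hq => ?_⟩
  · rw [neg_neg, ← hAt']
    exact hAK
  · have k := hz2 q hq
    rw [hAt'] at k
    have hn' : 0 < -z.1 := by linarith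
    have hz0 : z.1 ≠ 0 := hn.ne
    have e : z.2 / z.1 * (q.2 - t) * (-z.1) = -(z.2 * (q.2 - t)) := by
      field_simp
    by_contra hc
    push Not at hc
    nlinarith

theorem caseB {K : Set (ℝ × ℝ)} (hK : IsBody K) (mA : ((-1 : ℝ), (0 : ℝ)) ∈ K)
    (mB : ((1 : ℝ), (0 : ℝ)) ∈ K) (mC : ((0 : ℝ), (1 : ℝ)) ∈ K)
    (hy0 : ∀ z ∈ K, 0 ≤ z.2) (hy1 : ∀ z ∈ K, z.2 ≤ 1) (hR : ∀ z ∈ K, z.1 + z.2 ≤ 1)
    (hL : ∀ z ∈ K, -z.1 ≤ 1 + z.2) {c : ℝ} (c0 : 1 / 6 < c) :
    ∃ V : ℝ, 0 ≤ V ∧ Cov K ((1 + c) * V) ∧ ENNReal.ofReal V ≤ volume K := by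
  obtain ⟨X, s, mX, hX, lX⟩ := left_line hK mA mB mC (t := 1 / 4) (by norm_num) (by norm_num)
  obtain ⟨Y, r, mY, hY, lY⟩ := left_line hK mA mB mC (t := 3 / 4) (by norm_num) (by norm_num)
  have hX2 := hL _ mX
  have hY2 := hL _ mY
  simp only [neg_neg] at hX2 hY2
  have o1 := lX _ mY
  have o2 := lY _ mX
  simp only [neg_neg] at o1 o2
  have a1 := lX _ mA
  have a2 := lX _ mC
  have a3 := lY _ mA
  have a4 := lY _ mC
  simp only at a1 a2 a3 a4
  refine ⟨5 / 8 + 3 / 8 * (X + Y), by linarith, ?_, ?_⟩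
  · have hcov : Cov K (1 / 2 + (X + Y) / 2) := by
      apply Cov_swap
      refine cov_single (X0 := 0) (X1 := 1) (a := 1) (b := -1) (c1 := -(X - s * (1 / 4)))
        (d1 := -s) (c2 := -(Y - r * (3 / 4))) (d2 := -r) (q := 1 / 2) zero_lt_one ?_ ?_ ?_ ?_ ?_
        (by norm_num) (by norm_num) ?_
      · rintro _ ⟨z, hz, rfl⟩
        have k1 := lX z hz
        have k2 := lY z hz
        have k3 := hR z hz
        refine ⟨hy0 z hz, hy1 z hz, ?_, ?_, ?_⟩
        · show z.1 ≤ 1 + -1 * z.2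
          linarith
        · show -(X - s * (1 / 4)) + -s * z.2 ≤ z.1
          linarith
        · show -(Y - r * (3 / 4)) + -r * z.2 ≤ z.1
          linarith
      · linarith
      · linarith
      · linarith
      · linarith
      · apply le_of_eq
        ring
    refine cov_mono hcov subset_rfl ?_
    nlinarith [mul_nonneg (by linarith : 0 ≤ X + Y - 1) (by linarith : 0 ≤ c - 1 / 6)]
  · rw [← vol_swap]
    set S := Prod.swap '' K with hS
    have hSc : Convex ℝ S := conv_swap hK.convex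
    have ms : ∀ {x y : ℝ}, (x, y) ∈ K → (y, x) ∈ S := fun {x y} hxy => ⟨(x, y), hxy, rfl⟩
    have n1 : ((3 / 4 : ℝ), (1 / 4 : ℝ)) ∈ K := by
      have := conv_comb hK.convex mB mC (t := 1 / 4) (by norm_num) (by norm_num)
      simp only at this
      convert this using 2 <;> norm_num
    have n2 : ((1 / 4 : ℝ), (3 / 4 : ℝ)) ∈ K := by
      have := conv_comb hK.convex mB mC (t := 3 / 4) (by norm_num) (by norm_num)
      simp only at this
      convert this using 2 <;> norm_num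
    have g1 := trap hSc (p := 0) (q := 1 / 4) (by norm_num) (ms mA) (ms mB) (ms mX) (ms n1)
    have g2 := trap hSc (p := 1 / 4) (q := 3 / 4) (by norm_num) (ms mX) (ms n1) (ms mY) (ms n2)
    have g3 := trap hSc (p := 3 / 4) (q := 1) (by norm_num) (ms mY) (ms n2) (ms mC) (ms mC)
    have s1 := split_x S (p := 0) (q := 1 / 4) (r := 3 / 4) (by norm_num) (by norm_num)
    have s2 := split_x S (p := 0) (q := 3 / 4) (r := 1) (by norm_num) (by norm_num)
    calc ENNReal.ofReal (5 / 8 + 3 / 8 * (X + Y)) =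
        ENNReal.ofReal ((1 / 4 - 0) * ((1 - -1) + (3 / 4 - -X)) / 2) +
        ENNReal.ofReal ((3 / 4 - 1 / 4) * ((3 / 4 - -X) + (1 / 4 - -Y)) / 2) +
        ENNReal.ofReal ((1 - 3 / 4) * ((1 / 4 - -Y) + (0 - 0)) / 2) := by
          rw [← ENNReal.ofReal_add (by linarith) (by linarith),
            ← ENNReal.ofReal_add (by linarith) (by linarith)]
          congr 1
          ring
      _ ≤ volume (S ∩ {z : ℝ × ℝ | 0 < z.1 ∧ z.1 < 1 / 4}) +
          volume (S ∩ {z : ℝ × ℝ | 1 / 4 < z.1 ∧ z.1 < 3 / 4}) +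
          volume (S ∩ {z : ℝ × ℝ | 3 / 4 < z.1 ∧ z.1 < 1}) := by gcongr
      _ ≤ volume (S ∩ {z : ℝ × ℝ | 0 < z.1 ∧ z.1 < 3 / 4}) +
          volume (S ∩ {z : ℝ × ℝ | 3 / 4 < z.1 ∧ z.1 < 1}) := by gcongr
      _ ≤ volume (S ∩ {z : ℝ × ℝ | 0 < z.1 ∧ z.1 < 1}) := s2
      _ ≤ volume S := measure_mono inter_subset_left

end Pool.Agent.Helper8.PH5
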