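import Pool.Agent.Helper8.PH5.Upper
import Pool.Agent.Helper88.PH.Final

/-!
# MP_8bf717_co, polygons with at most five vertices: the lower bound and the exact value
-/

set_option autoImplicit false

open MeasureTheory Set
open scoped Pointwise

namespace Pool.Agent.Helper8.PH5

open Pool.Agent.Helper37.PH Pool.Agent.Helper61.PH Pool.Agent.Helper88.PH

/-- the extremal pentagon of area `1` -/
theorem exists_pent : ∃ K : Set (ℝ × ℝ), IsBody K ∧ volume K = 1 ∧
    (∃ s : Finset (ℝ × ℝ), s.card ≤ 5 ∧ K = convexHull ℝ (s : Set (ℝ × ℝ))) ∧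
    ENNReal.ofReal ((5 + 3 * Real.sqrt 5) / 10) ≤ hstar K := by
  have hgg := Real.goldenRatio_sq
  have hg1 := Real.one_lt_goldenRatio
  have hglo : 1.618 < Real.goldenRatio := by nlinarith
  have hghi : Real.goldenRatio < 1.6181 := by nlinarith
  have hτ : 2 - Real.goldenRatio ≤ (1 / 2 : ℝ) := by linarith
  have hτ' : (1 / 2 : ℝ) ≤ Real.goldenRatio - 1 := by linarith
  have hbody := pent_body hτ hτ'
  have hvle := vol_pent_le hτ hτ'
  set K0 : Set (ℝ × ℝ) := pent (1 / 2) with hK0
  have hfin : volume K0 ≠ ⊤ := ne_top_of_le_ne_top ENNReal.ofReal_ne_top hvle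
  have hpos : volume K0 ≠ 0 := by
    intro h0
    have h1 := isOpen_interior.measure_pos volume hbody.interior_nonempty
    have h2 := measure_mono (μ := volume) (interior_subset (s := K0))
    rw [h0] at h2
    exact absurd h1 (not_lt.2 h2)
  set V : ℝ := (volume K0).toReal with hV
  have hVpos : 0 < V := ENNReal.toReal_pos hpos hfin
  have hVle : V ≤ 1 + Real.goldenRatio / 2 := by
    rw [hV]
    exact ENNReal.toReal_le_of_le_ofReal (by linarith) hvle
  set c : ℝ := 1 / Real.sqrt V with hc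
  have hsV : 0 < Real.sqrt V := Real.sqrt_pos.2 hVpos
  have hc0 : 0 < c := one_div_pos.2 hsV
  have hc2 : c ^ 2 = 1 / V := by
    rw [hc, div_pow, one_pow, Real.sq_sqrt hVpos.le]
  have hKvol : volume (c • K0) = 1 := by
    rw [Measure.addHaar_smul]
    have hfr : Module.finrank ℝ (ℝ × ℝ) = 2 := by simp
    rw [hfr, hc2, abs_of_pos (one_div_pos.2 hVpos)]
    rw [← ENNReal.ofReal_toReal hfin, ← hV, ← ENNReal.ofReal_mul (by positivity)]
    rw [one_div_mul_cancel hVpos.ne', ENNReal.ofReal_one]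
  have hKbody : IsBody (c • K0) := by
    refine ⟨hbody.convex.smul c, hbody.compact.smul c, ?_⟩
    rw [interior_smul₀ hc0.ne']
    exact hbody.interior_nonempty.smul_set
  have e0 : (range fun j => c • Pv (1 / 2) j) = c • range (Pv (1 / 2)) := by
    rw [← image_smul, ← range_comp]; rfl
  have hKeq : c • K0 = convexHull ℝ (range fun j => c • Pv (1 / 2) j) := by
    rw [e0, convexHull_smul, ← pent_eq]
  refine ⟨c • K0, hKbody, hKvol, ⟨Finset.univ.image fun j : Fin 5 => c • Pv (1 / 2) j, ?_, ?_⟩, ?_⟩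
  · exact Finset.card_image_le
  · rw [hKeq]
    congr 1
    simp
  · unfold hstar
    refine le_iInf₂ fun R hR => ?_
    have hAR : AR (fun j => c • Pv (1 / 2) j) := by
      intro i
      have := AR_Pv (1 / 2) i
      show c • Pv (1 / 2) (i + 2) - c • Pv (1 / 2) (i + 4) =
        Real.goldenRatio • (c • Pv (1 / 2) (i + 1) - c • Pv (1 / 2) i)
      rw [← smul_sub, this, ← smul_sub, smul_comm]
    have hear : ear (fun j => c • Pv (1 / 2) j) 0 = c ^ 2 := by
      show cr (c • ((1 : ℝ), (0 : ℝ)) - c • ((0 : ℝ), (0 : ℝ)))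
        (c • ((1 / 2 : ℝ), (1 : ℝ)) - c • ((0 : ℝ), (0 : ℝ))) = c ^ 2
      unfold cr
      simp
      ring
    have hsub : convexHull ℝ (range fun j => c • Pv (1 / 2) j) ⊆ R := by
      rw [← hKeq]
      exact hR.2
    have h1 := bound_of_norm normBound hAR (by rw [hear]; positivity) hR.1 hsub
    rw [hear] at h1
    refine le_trans (ENNReal.ofReal_le_ofReal ?_) h1
    rw [abs_of_pos (by positivity), hc2]
    have h5 : Real.sqrt 5 = 2 * Real.goldenRatio - 1 := by
      unfold Real.goldenRatio; ring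
    rw [h5, one_div_mul_eq_div, le_div_iff₀ hVpos]
    nlinarith

/-- The supremum of `h*` over the convex polygons of area `1` with at most five vertices. -/
theorem exact5 : ⨆ (K : Set (ℝ × ℝ)) (_ : IsBody K ∧ volume K = 1 ∧
      ∃ s : Finset (ℝ × ℝ), s.card ≤ 5 ∧ K = convexHull ℝ (s : Set (ℝ × ℝ))), hstar K =
    ENNReal.ofReal ((5 + 3 * Real.sqrt 5) / 10) := by
  apply le_antisymm
  · refine iSup₂_le fun K hK => ?_
    obtain ⟨hb, hv, s, hs, hKs⟩ := hK
    have h5 : Real.sqrt 5 ^ 2 = 5 := Real.sq_sqrt (by norm_num)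
    have hlo : 2.236 < Real.sqrt 5 := by
      apply Real.lt_sqrt_of_sq_lt
      norm_num
    have hhi : Real.sqrt 5 < 2.2361 := by
      rw [Real.sqrt_lt' (by norm_num)]
      norm_num
    have e : (5 + 3 * Real.sqrt 5) / 10 = 1 + (3 * Real.sqrt 5 - 5) / 10 := by ring
    rw [e]
    refine upper hb hv hs hKs ?_ ?_ ?_
    · linear_combination 9 / 20 * h5
    · linarith
    · linarith
  · obtain ⟨K, hb, hv, hs, hle⟩ := exists_pent
    exact le_iSup₂_of_le K ⟨hb, hv, hs⟩ hle

end Pool.Agent.Helper8.PH5
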